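import Mathlib
import Pool.Agent.KS6_29.BM.Spread

set_option autoImplicit false

namespace Pool.Agent.KS6_29.BM

open Set Pool.Agent.Helper998.VecMatroid Pool.Agent.Helper998.DualRep

variable {X : Type} [AddCommGroup X] [Module (ZMod 2) X] [Finite X] {eps : X}



theorem span_perm {B : X →ₗ[ZMod 2] X} (G : (X × X) ≃ₗ[ZMod 2] (X × X)) (g : (Fin 4 × {x : X // x ≠ 0}) ≃ (Fin 4 × {x : X // x ≠ 0}))
    (hg : ∀ i, G (v B i) = v B (g i)) (J : Set (Fin 4 × {x : X // x ≠ 0})) :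
    Submodule.span (ZMod 2) (v B '' J) = ⊤ ↔ Submodule.span (ZMod 2) (v B '' (g '' J)) = ⊤ := by
  have h1 : v B '' (g '' J) = (G : (X × X) →ₗ[ZMod 2] (X × X)) '' (v B '' J) := by
    rw [Set.image_image, Set.image_image]
    apply Set.image_congr
    intro i _
    exact (hg i).symm
  rw [h1, ← Submodule.map_span]
  constructor
  · intro h
    rw [h, Submodule.map_top]
    exact LinearEquiv.range G
  · intro h
    have h2 : Submodule.map (G : (X × X) →ₗ[ZMod 2] (X × X)) (Submodule.span (ZMod 2) (v B '' J)) =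
        Submodule.map (G : (X × X) →ₗ[ZMod 2] (X × X)) ⊤ := by
      rw [h, Submodule.map_top]
      exact (LinearEquiv.range G).symm
    exact Submodule.map_injective_of_injective G.injective h2

theorem span_mid {B B' : X →ₗ[ZMod 2] X} (hd : ∀ x, ∃ c : ZMod 2, B x = B' x + c • eps)
    (hε : eps ≠ 0) {J : Set (Fin 4 × {x : X // x ≠ 0})} (hJ : e0 hε ∈ J) :
    Submodule.span (ZMod 2) (v B '' J) ≤ Submodule.span (ZMod 2) (v B' '' J) := by
  rw [Submodule.span_le]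
  rintro _ ⟨⟨a, x, hx⟩, hi, rfl⟩
  have hmem : v B' (a, ⟨x, hx⟩) ∈ Submodule.span (ZMod 2) (v B' '' J) :=
    Submodule.subset_span ⟨_, hi, rfl⟩
  have h0 : v B' (e0 hε) ∈ Submodule.span (ZMod 2) (v B' '' J) :=
    Submodule.subset_span ⟨_, hJ, rfl⟩
  have hcases : ∃ c : ZMod 2, v B (a, ⟨x, hx⟩) = v B' (a, ⟨x, hx⟩) + c • v B' (e0 hε) := by
    fin_cases a
    · exact ⟨0, by rw [zero_smul, add_zero]; rfl⟩
    · exact ⟨0, by rw [zero_smul, add_zero]; rfl⟩
    · exact ⟨0, by rw [zero_smul, add_zero]; rfl⟩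
    · obtain ⟨c, hc⟩ := hd x
      refine ⟨c, ?_⟩
      change ((B x, x) : (X × X)) = (B' x, x) + c • ((eps, 0) : (X × X))
      rw [hc]
      simp
  obtain ⟨c, hc⟩ := hcases
  rw [hc]
  exact Submodule.add_mem _ hmem (Submodule.smul_mem _ c h0)

theorem span_mid_iff {B B' : X →ₗ[ZMod 2] X} (hd : ∀ x, ∃ c : ZMod 2, B x = B' x + c • eps)
    (hε : eps ≠ 0) {J : Set (Fin 4 × {x : X // x ≠ 0})} (hJ : e0 hε ∈ J) :
    Submodule.span (ZMod 2) (v B '' J) = ⊤ ↔ Submodule.span (ZMod 2) (v B' '' J) = ⊤ := by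
  have hd' : ∀ x, ∃ c : ZMod 2, B' x = B x + c • eps := by
    intro x
    obtain ⟨c, hc⟩ := hd x
    refine ⟨-c, ?_⟩
    rw [hc, add_assoc, ← add_smul, add_neg_cancel, zero_smul, add_zero]
  constructor
  · intro h
    rw [eq_top_iff, ← h]
    exact span_mid hd hε hJ
  · intro h
    rw [eq_top_iff, ← h]
    exact span_mid hd' hε hJ

theorem deck {B B' : X →ₗ[ZMod 2] X} (h : Good eps B) (h' : Good eps B')
    (hd : ∀ x, ∃ c : ZMod 2, B x = B' x + c • eps) (e : (Fin 4 × {x : X // x ≠ 0})) :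
    ∃ f : (Fin 4 × {x : X // x ≠ 0}) ≃ (Fin 4 × {x : X // x ≠ 0}), f e = e ∧ ∀ I : Set (Fin 4 × {x : X // x ≠ 0}), e ∉ I →
      ((vecMatroid (ZMod 2) (v B))✶.Indep I ↔ (vecMatroid (ZMod 2) (v B'))✶.Indep (f '' I)) := by
  obtain ⟨G, g, hg, hge⟩ := transL h e
  obtain ⟨G', g', hg', hge'⟩ := transL h' e
  refine ⟨g.trans g'.symm, ?_, ?_⟩
  · rw [Equiv.trans_apply, hge, ← hge', Equiv.symm_apply_apply]
  · intro I heI
    rw [dual_indep_iff _ v_span, dual_indep_iff _ v_span]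
    rw [span_perm G g hg Iᶜ]
    have hmem : e0 h.ne0 ∈ g '' Iᶜ := ⟨e, heI, hge⟩
    rw [span_mid_iff hd h.ne0 hmem]
    rw [span_perm G' g' hg' ((g.trans g'.symm '' I)ᶜ)]
    have : g' '' ((g.trans g'.symm '' I)ᶜ) = g '' Iᶜ := by
      rw [← Set.image_compl_eq (g.trans g'.symm).bijective, Set.image_image]
      apply Set.image_congr
      intro i _
      simp
    rw [this]

end Pool.Agent.KS6_29.BM
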