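import Pool.Agent.KS6_29.BM.No

/-!
# The family of operators from a field of prime degree over `F_2`
-/

set_option autoImplicit false

namespace Pool.Agent.KS6_29.BM

open Polynomial

variable {K : Type} [Field K] [Algebra (ZMod 2) K] [Finite K] {n : ℕ}

theorem natDegree_minpoly (hn : n.Prime) (hK : Module.finrank (ZMod 2) K = n) {a : K}
    (h0 : a ≠ 0) (h1 : a ≠ 1) : (minpoly (ZMod 2) a).natDegree = n := by
  haveI : FiniteDimensional (ZMod 2) K := Module.finite_of_finrank_pos (by rw [hK]; exact hn.pos)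
  have hs : IsSimpleOrder (IntermediateField (ZMod 2) K) :=
    IntermediateField.isSimpleOrder_of_finrank_prime _ _ (by rw [hK]; exact hn)
  have htop : IntermediateField.adjoin (ZMod 2) {a} = ⊤ := by
    rcases hs.eq_bot_or_eq_top (IntermediateField.adjoin (ZMod 2) {a}) with h | h
    · exfalso
      rw [IntermediateField.adjoin_simple_eq_bot_iff, IntermediateField.mem_bot] at h
      obtain ⟨c, hc⟩ := h
      rcases zmod2_cases c with rfl | rfl
      · rw [map_zero] at hc; exact h0 hc.symm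
      · rw [map_one] at hc; exact h1 hc.symm
    · exact h
  rw [(Field.primitive_element_iff_minpoly_natDegree_eq (ZMod 2) a).1 htop, hK]

theorem exists_psi : ∃ ψ : K →ₗ[ZMod 2] ZMod 2, ψ 1 ≠ 0 := by
  by_contra h
  push Not at h
  exact one_ne_zero ((Module.forall_dual_apply_eq_zero_iff (ZMod 2) (1 : K)).1 h)

/-- the coordinates -/
noncomputable def thetaLin (ψ : K →ₗ[ZMod 2] ZMod 2) (n : ℕ) (a : K) :
    K →ₗ[ZMod 2] (Fin n → ZMod 2) :=
  LinearMap.pi (fun i => ψ ∘ₗ LinearMap.mulLeft (ZMod 2) (a ^ (n - 1 - (i : ℕ))))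

theorem thetaLin_apply (ψ : K →ₗ[ZMod 2] ZMod 2) (n : ℕ) (a y : K) (i : Fin n) :
    thetaLin ψ n a y i = ψ (a ^ (n - 1 - (i : ℕ)) * y) := rfl

theorem theta_inj (hn : n.Prime) (hK : Module.finrank (ZMod 2) K = n) {ψ : K →ₗ[ZMod 2] ZMod 2}
    (hψ : ψ 1 ≠ 0) {a : K} (h0 : a ≠ 0) (h1 : a ≠ 1) :
    Function.Injective (thetaLin ψ n a) := by
  haveI : FiniteDimensional (ZMod 2) K := Module.finite_of_finrank_pos (by rw [hK]; exact hn.pos)
  rw [← LinearMap.ker_eq_bot, LinearMap.ker_eq_bot']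
  intro y hy
  by_contra hne
  have hdeg := natDegree_minpoly hn hK h0 h1
  have hli := linearIndependent_pow (K := ZMod 2) a
  have hspan := hli.span_eq_top_of_card_eq_finrank' (by rw [Fintype.card_fin, hdeg, hK])
  have key : ∀ z ∈ Submodule.span (ZMod 2)
      (Set.range fun i : Fin (minpoly (ZMod 2) a).natDegree => a ^ (i : ℕ)), ψ (z * y) = 0 := by
    intro z hz
    induction hz using Submodule.span_induction with
    | mem z hz =>
      obtain ⟨i, rfl⟩ := hz
      have hi : (i : ℕ) < n := by have := i.2; omega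
      have h2 := congrFun hy ⟨n - 1 - (i : ℕ), by omega⟩
      rw [thetaLin_apply] at h2
      have h3 : n - 1 - (n - 1 - (i : ℕ)) = i := by omega
      simp only [h3] at h2
      exact h2
    | zero => rw [zero_mul, map_zero]
    | add z w _ _ hz hw => rw [add_mul, map_add, hz, hw, add_zero]
    | smul c z _ hz => rw [smul_mul_assoc, map_smul, hz, smul_zero]
  have h2 := key y⁻¹ (by rw [hspan]; exact Submodule.mem_top)
  rw [inv_mul_cancel₀ hne] at h2
  exact hψ h2

/-- the coordinates, as an equivalence -/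
noncomputable def theta (hn : n.Prime) (hK : Module.finrank (ZMod 2) K = n)
    {ψ : K →ₗ[ZMod 2] ZMod 2} (hψ : ψ 1 ≠ 0) {a : K} (h0 : a ≠ 0) (h1 : a ≠ 1) :
    K ≃ₗ[ZMod 2] (Fin n → ZMod 2) :=
  haveI : FiniteDimensional (ZMod 2) K := Module.finite_of_finrank_pos (by rw [hK]; exact hn.pos)
  LinearMap.linearEquivOfInjective (thetaLin ψ n a) (theta_inj hn hK hψ h0 h1)
    (by rw [hK, Module.finrank_fin_fun])

theorem theta_apply (hn : n.Prime) (hK : Module.finrank (ZMod 2) K = n)
    {ψ : K →ₗ[ZMod 2] ZMod 2} (hψ : ψ 1 ≠ 0) {a : K} (h0 : a ≠ 0) (h1 : a ≠ 1) (y : K)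
    (i : Fin n) : theta hn hK hψ h0 h1 y i = ψ (a ^ (n - 1 - (i : ℕ)) * y) := rfl

/-- multiplication by `a` in the coordinates -/
noncomputable def Bop (Θ : K ≃ₗ[ZMod 2] (Fin n → ZMod 2)) (a : K) :
    (Fin n → ZMod 2) →ₗ[ZMod 2] (Fin n → ZMod 2) :=
  Θ.toLinearMap ∘ₗ LinearMap.mulLeft (ZMod 2) a ∘ₗ Θ.symm.toLinearMap

theorem Bop_apply (Θ : K ≃ₗ[ZMod 2] (Fin n → ZMod 2)) (a : K) (x : Fin n → ZMod 2) :
    Bop Θ a x = Θ (a * Θ.symm x) := rfl

/-- the special vector -/
def eps (n : ℕ) [NeZero n] : Fin n → ZMod 2 := Pi.single 0 1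

theorem eps_ne (n : ℕ) [NeZero n] : eps n ≠ 0 := by
  intro h
  have := congrFun h 0
  simp [eps] at this

theorem good [NeZero n] (Θ : K ≃ₗ[ZMod 2] (Fin n → ZMod 2)) {a : K} (h0 : a ≠ 0) (h1 : a ≠ 1) :
    Good (eps n) (Bop Θ a) where
  ne0 := eps_ne n
  inj := by
    intro x y h
    rw [Bop_apply, Bop_apply] at h
    exact Θ.symm.injective (mul_left_cancel₀ h0 (Θ.injective h))
  tr := by
    intro x hx
    have hx' : Θ.symm x ≠ 0 := by
      intro h
      exact hx (by rw [← Θ.apply_symm_apply x, h, map_zero])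
    have he' : Θ.symm (eps n) ≠ 0 := by
      intro h
      exact eps_ne n (by rw [← Θ.apply_symm_apply (eps n), h, map_zero])
    set c : K := Θ.symm (eps n) / Θ.symm x with hc
    have hc0 : c ≠ 0 := div_ne_zero he' hx'
    have hinj : Function.Injective (Θ.toLinearMap ∘ₗ LinearMap.mulLeft (ZMod 2) c ∘ₗ
        Θ.symm.toLinearMap) := by
      intro x y h
      exact Θ.symm.injective (mul_left_cancel₀ hc0 (Θ.injective h))
    refine ⟨LinearEquiv.ofInjectiveEndo _ hinj, ?_, ?_⟩
    · intro y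
      show Θ (c * Θ.symm (Θ (a * Θ.symm y))) = Θ (a * Θ.symm (Θ (c * Θ.symm y)))
      rw [Θ.symm_apply_apply, Θ.symm_apply_apply]
      congr 1
      ring
    · show Θ (c * Θ.symm x) = eps n
      rw [hc, div_mul_cancel₀ _ hx', Θ.apply_symm_apply]
  C_inj := by
    intro x hx
    rw [Bop_apply] at hx
    have h2 : Θ ((1 + a) * Θ.symm x) = 0 := by
      rw [add_mul, one_mul, map_add, Θ.apply_symm_apply]
      exact hx
    have h3 : (1 + a) * Θ.symm x = 0 := Θ.injective (by rw [h2, map_zero])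
    rcases mul_eq_zero.1 h3 with h | h
    · exfalso
      apply h1
      haveI : CharP K 2 := charP_of_injective_algebraMap (algebraMap (ZMod 2) K).injective 2
      have := CharTwo.add_eq_zero.1 h
      exact this.symm
    · rw [← Θ.apply_symm_apply x, h, map_zero]

/-- two of the operators differ by an operator with range in `⟨eps⟩` -/
theorem Bdiff [NeZero n] (hn : n.Prime) (hK : Module.finrank (ZMod 2) K = n)
    {ψ : K →ₗ[ZMod 2] ZMod 2} (hψ : ψ 1 ≠ 0) {a b : K} (ha0 : a ≠ 0) (ha1 : a ≠ 1)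
    (hb0 : b ≠ 0) (hb1 : b ≠ 1) (x : Fin n → ZMod 2) :
    ∃ c : ZMod 2, Bop (theta hn hK hψ ha0 ha1) a x = Bop (theta hn hK hψ hb0 hb1) b x +
      c • eps n := by
  have key : ∀ {a : K} (ha0 : a ≠ 0) (ha1 : a ≠ 1) (i : Fin n) (hi : i ≠ 0),
      Bop (theta hn hK hψ ha0 ha1) a x i = x ⟨(i : ℕ) - 1, by omega⟩ := by
    intro a ha0 ha1 i hi
    have hi' : (i : ℕ) ≠ 0 := fun h => hi (Fin.ext h)
    have hilt := i.2
    conv_rhs => rw [← (theta hn hK hψ ha0 ha1).apply_symm_apply x]
    rw [Bop_apply, theta_apply, theta_apply, ← mul_assoc, ← pow_succ]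
    congr 3
    show n - 1 - (i : ℕ) + 1 = n - 1 - ((i : ℕ) - 1)
    omega
  refine ⟨Bop (theta hn hK hψ ha0 ha1) a x 0 - Bop (theta hn hK hψ hb0 hb1) b x 0, ?_⟩
  funext i
  by_cases hi : i = 0
  · subst hi
    simp [eps]
  · rw [key ha0 ha1 i hi]
    simp only [Pi.add_apply, Pi.smul_apply, eps]
    rw [key hb0 hb1 i hi, Pi.single_eq_of_ne hi, smul_zero, add_zero]

/-- conjugate elements are roots of the same minimal polynomial -/
theorem root_of_rel {A : K → K} (hA : Function.Injective A) (hadd : ∀ x y, A (x + y) = A x + A y)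
    {u c : K} (h : ∀ y, A (u * y) = c * A y) : aeval c (minpoly (ZMod 2) u) = 0 := by
  have h0 : A 0 = 0 := by
    have := hadd 0 0
    rw [add_zero] at this
    exact left_eq_add.1 this
  have hpow : ∀ (k : ℕ) (y : K), A (u ^ k * y) = c ^ k * A y := by
    intro k
    induction k with
    | zero => intro y; rw [pow_zero, pow_zero, one_mul, one_mul]
    | succ k ih =>
      intro y
      rw [pow_succ, mul_assoc, ih, h, pow_succ, mul_assoc]
  have hp : ∀ p : (ZMod 2)[X], ∀ y, A (aeval u p * y) = aeval c p * A y := by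
    intro p
    induction p using Polynomial.induction_on' with
    | add p q hp hq => intro y; rw [map_add, add_mul, hadd, hp, hq, map_add, add_mul]
    | monomial k r =>
      intro y
      rw [aeval_monomial, aeval_monomial]
      rcases zmod2_cases r with rfl | rfl
      · rw [map_zero, zero_mul, zero_mul, zero_mul, zero_mul, h0]
      · rw [map_one, one_mul, one_mul, hpow]
  have h2 := hp (minpoly (ZMod 2) u) 1
  rw [minpoly.aeval, zero_mul, h0] at h2
  have h3 : A 1 ≠ 0 := by
    intro h4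
    rw [← h0] at h4
    exact one_ne_zero (hA h4)
  rcases mul_eq_zero.1 h2.symm with h4 | h4
  · exact h4
  · exact absurd h4 h3

end Pool.Agent.KS6_29.BM
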