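import Mathlib
import Pool.Agent.KS6_29.BM.Deck

set_option autoImplicit false

namespace Pool.Agent.KS6_29.BM

open Set Pool.Agent.Helper998.VecMatroid Pool.Agent.Helper998.DualRep

variable {X : Type} [AddCommGroup X] [Module (ZMod 2) X] [Finite X] {eps : X}



theorem primal_iso {B B' : X →ₗ[ZMod 2] X} (f : (Fin 4 × {x : X // x ≠ 0}) ≃ (Fin 4 × {x : X // x ≠ 0}))
    (hf : ∀ I : Set (Fin 4 × {x : X // x ≠ 0}), (vecMatroid (ZMod 2) (v B))✶.Indep I ↔
      (vecMatroid (ZMod 2) (v B'))✶.Indep (f '' I)) (J : Set (Fin 4 × {x : X // x ≠ 0})) :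
    (vecMatroid (ZMod 2) (v B)).Indep J ↔ (vecMatroid (ZMod 2) (v B')).Indep (f '' J) := by
  have h1 : (vecMatroid (ZMod 2) (v B)).mapEquiv f = vecMatroid (ZMod 2) (v B') := by
    rw [← Matroid.dual_inj, Matroid.mapEquiv_eq_map, Matroid.map_dual, ← Matroid.mapEquiv_eq_map]
    apply Matroid.ext_indep
    · rw [Matroid.mapEquiv_ground_eq, Matroid.dual_ground, Matroid.dual_ground, vecMatroid_E,
        vecMatroid_E, Set.image_univ, f.range_eq_univ]
    · intro I _
      rw [Matroid.mapEquiv_indep_iff, hf, Set.image_image]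
      simp
  rw [← h1, Matroid.mapEquiv_indep_iff, Set.image_image]
  simp

theorem zmod2_cases (a : ZMod 2) : a = 0 ∨ a = 1 := by
  revert a
  decide

theorem two_v (x : (X × X)) : x + x = 0 := by
  obtain ⟨a, b⟩ := x
  rw [Prod.mk_add_mk, two_x, two_x]
  rfl

theorem eq_of_add_v {x y : (X × X)} (h : x + y = 0) : x = y := by
  have : x + y + y = 0 + y := by rw [h]
  rwa [add_assoc, two_v, add_zero, zero_add] at this

theorem tri_iff {B : X →ₗ[ZMod 2] X} (h : Good eps B) {a b c : (Fin 4 × {x : X // x ≠ 0})} (hab : a ≠ b) (hac : a ≠ c)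
    (hbc : b ≠ c) :
    (vecMatroid (ZMod 2) (v B)).Dep {a, b, c} ↔ v B a + v B b + v B c = 0 := by
  classical
  haveI : Fintype (Fin 4 × {x : X // x ≠ 0}) := Fintype.ofFinite _
  have hsum : ∀ w : (Fin 4 × {x : X // x ≠ 0}) → ZMod 2, Function.support w ⊆ {a, b, c} →
      ∑ i, w i • v B i = w a • v B a + w b • v B b + w c • v B c := by
    intro w hw
    rw [← Finset.sum_subset (Finset.subset_univ {a, b, c})]
    · rw [Finset.sum_insert (by simp [hab, hac]), Finset.sum_insert (by simp [hbc]),
        Finset.sum_singleton, add_assoc]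
    · intro i _ hi
      have : w i = 0 := by
        by_contra hne
        apply hi
        have := hw hne
        simpa using this
      rw [this, zero_smul]
  rw [dep_iff]
  constructor
  · rintro ⟨w, hw0, hrel, hs⟩
    rw [IsRel, hsum w hs] at hrel
    have hne : ¬ (w a = 0 ∧ w b = 0 ∧ w c = 0) := by
      rintro ⟨h1, h2, h3⟩
      apply hw0
      funext i
      by_contra hi
      have := hs hi
      simp only [Set.mem_insert_iff, Set.mem_singleton_iff] at this
      rcases this with rfl | rfl | rfl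
      · exact hi h1
      · exact hi h2
      · exact hi h3
    rcases zmod2_cases (w a) with ha | ha <;> rcases zmod2_cases (w b) with hb | hb <;>
      rcases zmod2_cases (w c) with hc | hc <;>
      simp only [ha, hb, hc, zero_smul, one_smul, add_zero, zero_add] at hrel
    · exact absurd ⟨ha, hb, hc⟩ hne
    · exact absurd hrel (v_ne c)
    · exact absurd hrel (v_ne b)
    · exact absurd (v_inj h (eq_of_add_v hrel)) hbc
    · exact absurd hrel (v_ne a)
    · exact absurd (v_inj h (eq_of_add_v hrel)) hac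
    · exact absurd (v_inj h (eq_of_add_v hrel)) hab
    · exact hrel
  · intro hrel
    refine ⟨Set.indicator {a, b, c} 1, ?_, ?_, ?_⟩
    · intro h0
      have := congrFun h0 a
      simp at this
    · rw [IsRel, hsum _ Set.support_indicator_subset]
      simpa using hrel
    · exact Set.support_indicator_subset

theorem tri_map {B B' : X →ₗ[ZMod 2] X} (h : Good eps B) (h' : Good eps B') (f : (Fin 4 × {x : X // x ≠ 0}) ≃ (Fin 4 × {x : X // x ≠ 0}))
    (hf : ∀ J : Set (Fin 4 × {x : X // x ≠ 0}), (vecMatroid (ZMod 2) (v B)).Indep J ↔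
      (vecMatroid (ZMod 2) (v B')).Indep (f '' J)) {a b c : (Fin 4 × {x : X // x ≠ 0})} (hab : a ≠ b)
    (hs : v B a + v B b + v B c = 0) : v B' (f a) + v B' (f b) + v B' (f c) = 0 := by
  have hac : a ≠ c := by
    rintro rfl
    rw [add_right_comm, two_v, zero_add] at hs
    exact v_ne b hs
  have hbc : b ≠ c := by
    rintro rfl
    rw [add_assoc, two_v, add_zero] at hs
    exact v_ne a hs
  rw [← tri_iff h' (f.injective.ne hab) (f.injective.ne hac) (f.injective.ne hbc)]
  have h1 := (tri_iff h hab hac hbc).2 hs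
  rw [← Matroid.not_indep_iff (by simp)] at h1 ⊢
  rw [hf] at h1
  have : f '' {a, b, c} = {f a, f b, f c} := by
    rw [Set.image_insert_eq, Set.image_pair]
  rwa [this] at h1

/-- An isomorphism between the matroids comes from a linear bijection. -/
theorem lin_of_iso {B B' : X →ₗ[ZMod 2] X} (h : Good eps B) (h' : Good eps B') (f : (Fin 4 × {x : X // x ≠ 0}) ≃ (Fin 4 × {x : X // x ≠ 0}))
    (hf : ∀ J : Set (Fin 4 × {x : X // x ≠ 0}), (vecMatroid (ZMod 2) (v B)).Indep J ↔
      (vecMatroid (ZMod 2) (v B')).Indep (f '' J)) :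
    ∃ G : (X × X) ≃ₗ[ZMod 2] (X × X), ∀ i, G (v B i) = v B' (f i) := by
  classical
  let F : Fin 4 → X → (X × X) := fun a x => if hx : x ≠ 0 then v B' (f (a, ⟨x, hx⟩)) else 0
  have hF : ∀ a x (hx : x ≠ 0), F a x = v B' (f (a, ⟨x, hx⟩)) := by
    intro a x hx
    simp only [F, dif_pos hx]
  have hF0 : ∀ a, F a 0 = 0 := by
    intro a
    simp only [F, ne_eq, not_true_eq_false, dite_false]
  have hadd : ∀ a x y, F a (x + y) = F a x + F a y := by
    intro a x y
    by_cases hx : x = 0
    · subst hx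
      rw [hF0, zero_add, zero_add]
    by_cases hy : y = 0
    · subst hy
      rw [hF0, add_zero, add_zero]
    by_cases hxy : x = y
    · subst hxy
      rw [two_x, hF0, two_v]
    have hxy' : x + y ≠ 0 := fun h0 => hxy (eq_of_add h0)
    rw [hF a x hx, hF a y hy, hF a (x + y) hxy']
    have ht := tri_map h h' f hf (a := (a, ⟨x, hx⟩)) (b := (a, ⟨y, hy⟩))
      (c := (a, ⟨x + y, hxy'⟩)) (by
        intro he
        apply hxy
        have := congrArg (fun i : (Fin 4 × {x : X // x ≠ 0}) => i.2.1) he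
        exact this) (by
        change j B a x + j B a y + j B a (x + y) = 0
        rw [map_add, two_v])
    exact (eq_of_add_v ht).symm
  let FL : Fin 4 → X →ₗ[ZMod 2] (X × X) := fun a =>
    AddMonoidHom.toZModLinearMap 2 { toFun := F a, map_zero' := hF0 a, map_add' := hadd a }
  have hFL : ∀ a x, FL a x = F a x := fun a x => rfl
  let G0 : (X × X) →ₗ[ZMod 2] (X × X) := (FL 0).coprod (FL 1)
  have hG0 : ∀ x y, G0 (x, y) = F 0 x + F 1 y := by
    intro x y
    rw [LinearMap.coprod_apply]
    rfl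
  have hG : ∀ i, G0 (v B i) = v B' (f i) := by
    rintro ⟨a, x, hx⟩
    fin_cases a
    · change G0 (x, 0) = v B' (f (0, ⟨x, hx⟩))
      rw [hG0, hF0, add_zero, hF 0 x hx]
    · change G0 (0, x) = v B' (f (1, ⟨x, hx⟩))
      rw [hG0, hF0, zero_add, hF 1 x hx]
    · change G0 (x, x) = v B' (f (2, ⟨x, hx⟩))
      rw [hG0, hF 0 x hx, hF 1 x hx]
      have ht := tri_map h h' f hf (a := (0, ⟨x, hx⟩)) (b := (1, ⟨x, hx⟩))
        (c := (2, ⟨x, hx⟩)) (by
          intro he
          have := congrArg Prod.fst he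
          simp at this) (by
          change ((x, 0) : (X × X)) + (0, x) + (x, x) = 0
          rw [Prod.mk_add_mk, Prod.mk_add_mk, add_zero, zero_add, two_x]
          rfl)
      exact eq_of_add_v ht
    · change G0 (B x, x) = v B' (f (3, ⟨x, hx⟩))
      rw [hG0, hF 0 (B x) (h.B_ne hx), hF 1 x hx]
      have ht := tri_map h h' f hf (a := (0, ⟨B x, h.B_ne hx⟩)) (b := (1, ⟨x, hx⟩))
        (c := (3, ⟨x, hx⟩)) (by
          intro he
          have := congrArg Prod.fst he
          simp at this) (by
          change ((B x, 0) : (X × X)) + (0, x) + (B x, x) = 0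
          rw [Prod.mk_add_mk, Prod.mk_add_mk, add_zero, zero_add, two_x, two_x]
          rfl)
      exact eq_of_add_v ht
  have hsurj : Function.Surjective G0 := by
    rw [← LinearMap.range_eq_top, eq_top_iff, ← v_span (B := B'), Submodule.span_le]
    rintro _ ⟨i, rfl⟩
    refine ⟨v B (f.symm i), ?_⟩
    rw [hG, Equiv.apply_symm_apply]
  have hinj : Function.Injective G0 := LinearMap.injective_iff_surjective.2 hsurj
  exact ⟨LinearEquiv.ofBijective G0 ⟨hinj, hsurj⟩, hG⟩

end Pool.Agent.KS6_29.BM
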