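import Pool.Agent.KS6_29.BM.Field

/-!
# Many non-isomorphic binary matroids with the same deck
-/

set_option autoImplicit false

namespace Pool.Agent.KS6_29.BM

open Polynomial Pool.Agent.Helper998.VecMatroid Pool.Agent.Helper998.DualRep

variable {K : Type} [Field K] [Algebra (ZMod 2) K] [Finite K] {n : ℕ}

open Classical in
/-- the roots of the minimal polynomial of `1 + a` -/
noncomputable def rootSet (a : K) : Finset K := ((minpoly (ZMod 2) (1 + a)).aroots K).toFinset

open Classical in
/-- the parameters that could give an isomorphic matroid -/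
noncomputable def bad (a : K) : Finset K :=
  (rootSet a).image (fun c => c + 1) ∪ ((rootSet a).image (fun c => 1 / (c + 1)) ∪
    (rootSet a ∪ ((rootSet a).image (fun c => c / (1 + c)) ∪
      ((rootSet a).image (fun c => 1 / c) ∪ (rootSet a).image (fun c => 1 / c + 1)))))

theorem card_bad (hn : n.Prime) (hK : Module.finrank (ZMod 2) K = n) (a : K) :
    (bad a).card ≤ 6 * n := by
  classical
  haveI : FiniteDimensional (ZMod 2) K := Module.finite_of_finrank_pos (by rw [hK]; exact hn.pos)
  have h1 : (rootSet a).card ≤ n := by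
    calc (rootSet a).card ≤ Multiset.card ((minpoly (ZMod 2) (1 + a)).aroots K) :=
          Multiset.toFinset_card_le _
      _ ≤ (minpoly (ZMod 2) (1 + a)).natDegree := by
          refine (Polynomial.card_roots' _).trans ?_
          exact Polynomial.natDegree_map_le
      _ ≤ Module.finrank (ZMod 2) K := minpoly.natDegree_le _
      _ = n := hK
  have h2 : ∀ g : K → K, ((rootSet a).image g).card ≤ n :=
    fun g => Finset.card_image_le.trans h1
  unfold bad
  refine (Finset.card_union_le _ _).trans ?_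
  have h3 := (Finset.card_union_le ((rootSet a).image (fun c => 1 / (c + 1)))
    (rootSet a ∪ ((rootSet a).image (fun c => c / (1 + c)) ∪
      ((rootSet a).image (fun c => 1 / c) ∪ (rootSet a).image (fun c => 1 / c + 1)))))
  have h4 := (Finset.card_union_le (rootSet a) ((rootSet a).image (fun c => c / (1 + c)) ∪
      ((rootSet a).image (fun c => 1 / c) ∪ (rootSet a).image (fun c => 1 / c + 1))))
  have h5 := (Finset.card_union_le ((rootSet a).image (fun c => c / (1 + c)))
      ((rootSet a).image (fun c => 1 / c) ∪ (rootSet a).image (fun c => 1 / c + 1)))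
  have h6 := (Finset.card_union_le ((rootSet a).image (fun c => 1 / c))
      ((rootSet a).image (fun c => 1 / c + 1)))
  have a1 := h2 (fun c => c + 1)
  have a2 := h2 (fun c => 1 / (c + 1))
  have a3 := h2 (fun c => c / (1 + c))
  have a4 := h2 (fun c => 1 / c)
  have a5 := h2 (fun c => 1 / c + 1)
  omega

theorem mem_rootSet {a c : K} (h : aeval c (minpoly (ZMod 2) (1 + a)) = 0) : c ∈ rootSet a := by
  classical
  haveI : FiniteDimensional (ZMod 2) K := inferInstance
  unfold rootSet
  rw [Multiset.mem_toFinset, Polynomial.mem_aroots]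
  exact ⟨minpoly.ne_zero (Algebra.IsIntegral.isIntegral _), h⟩

/-- isomorphic matroids have bad parameters -/
theorem bad_of_iso [NeZero n] (hcard : 12 < Nat.card (Fin n → ZMod 2))
    (Θ Θ' : K ≃ₗ[ZMod 2] (Fin n → ZMod 2)) {a b : K} (ha0 : a ≠ 0) (ha1 : a ≠ 1)
    (hb0 : b ≠ 0) (hb1 : b ≠ 1)
    (f : (Fin 4 × {x : Fin n → ZMod 2 // x ≠ 0}) ≃ (Fin 4 × {x : Fin n → ZMod 2 // x ≠ 0}))
    (hf : ∀ I, (vecMatroid (ZMod 2) (v (Bop Θ a)))✶.Indep I ↔
      (vecMatroid (ZMod 2) (v (Bop Θ' b)))✶.Indep (f '' I)) : b ∈ bad a := by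
  classical
  haveI : CharP K 2 := charP_of_injective_algebraMap (algebraMap (ZMod 2) K).injective 2
  have hb1' : 1 + b ≠ 0 := fun h => hb1 (CharTwo.add_eq_zero.1 h).symm
  obtain ⟨A, hA, hadd, hrel⟩ := rel_of_iso hcard (good Θ ha0 ha1) (good Θ' hb0 hb1) f hf
  let A' : K → K := fun y => Θ'.symm (A (Θ y))
  have hA' : Function.Injective A' := fun x y h => Θ.injective (hA (Θ'.symm.injective h))
  have hadd' : ∀ x y, A' (x + y) = A' x + A' y := by
    intro x y
    show Θ'.symm (A (Θ (x + y))) = _
    rw [map_add, hadd, map_add]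
  have e1 : ∀ z, A (Θ z + Bop Θ a (Θ z)) = Θ' (A' ((1 + a) * z)) := by
    intro z
    show _ = Θ' (Θ'.symm (A (Θ ((1 + a) * z))))
    rw [Θ'.apply_symm_apply, Bop_apply, Θ.symm_apply_apply, add_mul, one_mul, map_add]
  have e2 : ∀ z, A (Θ z) = Θ' (A' z) := fun z => (Θ'.apply_symm_apply _).symm
  have e3 : ∀ w : K, Bop Θ' b (Θ' w) = Θ' (b * w) := by
    intro w
    rw [Bop_apply, Θ'.symm_apply_apply]
  have fin : ∀ c : K, (∀ z, A' ((1 + a) * z) = c * A' z) → c ∈ rootSet a := fun c hc =>
    mem_rootSet (root_of_rel hA' hadd' hc)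
  unfold bad
  simp only [Finset.mem_union, Finset.mem_image]
  rcases hrel with h | h | h | h | h | h
  · -- c = 1 + b
    refine Or.inl ⟨1 + b, fin _ fun z => ?_, ?_⟩
    · have h2 := h (Θ z)
      rw [e1, e2, e3, ← map_add] at h2
      rw [Θ'.injective h2]; ring
    · rw [add_right_comm, CharTwo.add_self_eq_zero, zero_add]
  · -- c = (1 + b) / b
    refine Or.inr (Or.inl ⟨(1 + b) / b, fin _ fun z => ?_, ?_⟩)
    · have h2 := h (Θ z)
      rw [e1, e2, e3, e3, ← map_add] at h2
      have h3 := Θ'.injective h2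
      rw [div_mul_eq_mul_div, eq_div_iff hb0, mul_comm _ b, h3]; ring
    · have h4 : (1 + b) / b + 1 = 1 / b := by
        rw [add_div, div_self hb0, add_assoc, CharTwo.add_self_eq_zero, add_zero]
      rw [h4, one_div_one_div]
  · -- c = b
    refine Or.inr (Or.inr (Or.inl (fin _ fun z => ?_)))
    have h2 := h (Θ z)
    rw [e1, e2, e3] at h2
    exact Θ'.injective h2
  · -- c = b / (1 + b)
    refine Or.inr (Or.inr (Or.inr (Or.inl ⟨b / (1 + b), fin _ fun z => ?_, ?_⟩)))
    · have h2 := h (Θ z)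
      rw [e1, e2, e3, e3, ← map_add] at h2
      have h3 := Θ'.injective h2
      rw [div_mul_eq_mul_div, eq_div_iff hb1', ← h3]; ring
    · have h4 : 1 + b / (1 + b) = 1 / (1 + b) := by
        rw [eq_div_iff hb1', add_mul, one_mul, div_mul_cancel₀ _ hb1', add_assoc,
          CharTwo.add_self_eq_zero, add_zero]
      rw [h4, div_div_div_cancel_right₀ hb1', div_one]
  · -- c = 1 / b
    refine Or.inr (Or.inr (Or.inr (Or.inr (Or.inl ⟨1 / b, fin _ fun z => ?_, ?_⟩))))
    · have h2 := h (Θ z)
      rw [e1, e2, e3] at h2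
      have h3 := Θ'.injective h2
      rw [div_mul_eq_mul_div, eq_div_iff hb0, one_mul, ← h3]; ring
    · rw [one_div_one_div]
  · -- c = 1 / (1 + b)
    refine Or.inr (Or.inr (Or.inr (Or.inr (Or.inr ⟨1 / (1 + b), fin _ fun z => ?_, ?_⟩))))
    · have h2 := h (Θ z)
      rw [e1, e2, e3, ← map_add] at h2
      have h3 := Θ'.injective h2
      rw [div_mul_eq_mul_div, eq_div_iff hb1', one_mul, ← h3]; ring
    · rw [one_div_one_div, add_right_comm, CharTwo.add_self_eq_zero, zero_add]

/-- choice of the parameters -/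
theorem exists_params (hn : n.Prime) (hK : Module.finrank (ZMod 2) K = n) (k : ℕ)
    (hk : 6 * n * k + 2 < Nat.card K) :
    ∃ a : ℕ → K, ∀ j ≤ k, a j ≠ 0 ∧ a j ≠ 1 ∧ ∀ i < j, a j ∉ bad (a i) := by
  classical
  haveI : Fintype K := Fintype.ofFinite K
  have step : ∀ (k' : ℕ) (a : ℕ → K), 6 * n * k' + 2 < Nat.card K →
      ∃ x : K, x ≠ 0 ∧ x ≠ 1 ∧ ∀ i < k', x ∉ bad (a i) := by
    intro k' a hk'
    let T : Finset K := {0, 1} ∪ (Finset.range k').biUnion (fun i => bad (a i))
    have hT : T.card ≤ 2 + k' * (6 * n) := by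
      refine (Finset.card_union_le _ _).trans (Nat.add_le_add Finset.card_le_two ?_)
      refine Finset.card_biUnion_le.trans ?_
      calc ∑ i ∈ Finset.range k', (bad (a i)).card ≤ ∑ i ∈ Finset.range k', 6 * n :=
            Finset.sum_le_sum fun i _ => card_bad hn hK _
        _ = k' * (6 * n) := by rw [Finset.sum_const, Finset.card_range, smul_eq_mul]
    have hne : T ≠ Finset.univ := by
      intro h
      rw [h, Finset.card_univ, ← Nat.card_eq_fintype_card] at hT
      have : k' * (6 * n) = 6 * n * k' := by ring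
      omega
    obtain ⟨x, hx⟩ : ∃ x, x ∉ T := by
      by_contra hcon
      push Not at hcon
      exact hne (Finset.eq_univ_of_forall hcon)
    simp only [T, Finset.mem_union, Finset.mem_insert, Finset.mem_singleton, Finset.mem_biUnion,
      Finset.mem_range, not_or, not_exists, not_and] at hx
    exact ⟨x, hx.1.1, hx.1.2, hx.2⟩
  induction k with
  | zero =>
    obtain ⟨x, h0, h1, -⟩ := step 0 (fun _ => 0) hk
    exact ⟨fun _ => x, fun j hj => ⟨h0, h1, fun i hi => absurd hi (by omega)⟩⟩
  | succ k ih =>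
    obtain ⟨a, ha⟩ := ih (lt_of_le_of_lt (by gcongr; omega) hk)
    obtain ⟨x, h0, h1, h2⟩ := step (k + 1) a hk
    refine ⟨fun j => if j = k + 1 then x else a j, fun j hj => ?_⟩
    by_cases hj' : j = k + 1
    · subst hj'
      refine ⟨by simpa using h0, by simpa using h1, fun i hi => ?_⟩
      simp only [if_pos, if_neg (show i ≠ k + 1 by omega)]
      exact h2 i hi
    · simp only [if_neg hj']
      obtain ⟨b0, b1, b2⟩ := ha j (by omega)
      refine ⟨b0, b1, fun i hi => ?_⟩
      simp only [if_neg (show i ≠ k + 1 by omega)]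
      exact b2 i hi

end Pool.Agent.KS6_29.BM
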