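import Mathlib
import Pool.Agent.KS6_29.BM.Iso

set_option autoImplicit false

namespace Pool.Agent.KS6_29.BM

open Set Pool.Agent.Helper998.VecMatroid Pool.Agent.Helper998.DualRep

variable {X : Type} [AddCommGroup X] [Module (ZMod 2) X] [Finite X] {eps : X}



/-- The image of each of the four subspaces is one of the four subspaces. -/
theorem cls (hcard : 12 < Nat.card X) {B B' : X →ₗ[ZMod 2] X} (h' : Good eps B') (G : (X × X) ≃ₗ[ZMod 2] (X × X))
    (hG : ∀ a x, ∃ a' x', G (j B a x) = j B' a' x') (a : Fin 4) :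
    ∃ b, ∀ x, ∃ y, G (j B a x) = j B' b y := by
  classical
  haveI : Fintype X := Fintype.ofFinite X
  by_contra hcon
  push Not at hcon
  choose x0 hx0 using hcon
  choose cl prm hcl using hG a
  let Y : Fin 4 → Finset X := fun b => Finset.univ.filter (fun x => ∃ y, G (j B a x) = j B' b y)
  have hY : ∀ b, (Y b).card ≤ 3 := by
    intro b
    have h3 : (Finset.univ.erase b : Finset (Fin 4)).card = 3 := by
      rw [Finset.card_erase_of_mem (Finset.mem_univ _)]
      rfl
    rw [← h3]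
    apply Finset.card_le_card_of_injOn (fun x => cl (x0 b + x))
    · intro x hx
      simp only [Y, Finset.coe_filter, Finset.mem_univ, true_and, Set.mem_ofPred_eq] at hx
      obtain ⟨y, hy⟩ := hx
      simp only [Finset.coe_erase, Finset.coe_univ, Set.mem_sdiff, Set.mem_univ,
        Set.mem_singleton_iff, true_and]
      intro hb
      have h1 := hcl (x0 b + x)
      rw [hb, map_add, map_add, hy] at h1
      apply hx0 b (prm (x0 b + x) + y)
      rw [map_add, ← h1, add_assoc, two_v, add_zero]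
    · intro x hx x' hx' hxx
      simp only [Y, Finset.coe_filter, Finset.mem_univ, true_and, Set.mem_ofPred_eq] at hx hx'
      obtain ⟨y, hy⟩ := hx
      obtain ⟨y', hy'⟩ := hx'
      simp only at hxx
      have h1 := hcl (x0 b + x)
      have h2 := hcl (x0 b + x')
      rw [← hxx] at h2
      have hne : cl (x0 b + x) ≠ b := by
        intro hb
        rw [hb, map_add, map_add, hy] at h1
        apply hx0 b (prm (x0 b + x) + y)
        rw [map_add, ← h1, add_assoc, two_v, add_zero]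
      have h3 : G (j B a (x + x')) = j B' (cl (x0 b + x)) (prm (x0 b + x) + prm (x0 b + x')) := by
        rw [map_add (j B' _), ← h1, ← h2, ← map_add G, ← map_add (j B a)]
        congr 2
        rw [add_add_add_comm, two_x, zero_add]
      have h4 : G (j B a (x + x')) = j B' b (y + y') := by
        rw [map_add, map_add, hy, hy', map_add]
      rw [h3] at h4
      have h5 := (j_disj h' hne h4).1
      rw [h5, map_zero] at h3
      have h6 : j B a (x + x') = 0 := by
        apply G.injective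
        rw [h3, map_zero]
      have h7 : x + x' = 0 := by
        apply j_inj (B := B) a
        rw [h6, map_zero]
      exact eq_of_add h7
  have hcov : (Finset.univ : Finset X) ⊆ Finset.univ.biUnion Y := by
    intro x _
    rw [Finset.mem_biUnion]
    exact ⟨cl x, Finset.mem_univ _, by simp only [Y, Finset.mem_filter, Finset.mem_univ, true_and]; exact ⟨_, hcl x⟩⟩
  have hc := Finset.card_le_card hcov
  have hc2 : (Finset.univ.biUnion Y).card ≤ ∑ b : Fin 4, (Y b).card := Finset.card_biUnion_le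
  have hc3 : ∑ b : Fin 4, (Y b).card ≤ ∑ b : Fin 4, 3 := Finset.sum_le_sum (fun b _ => hY b)
  rw [Finset.card_univ, ← Nat.card_eq_fintype_card] at hc
  simp at hc3
  omega

/-- The core of the non-isomorphism. -/
theorem exists_rel (hcard : 12 < Nat.card X) {B B' : X →ₗ[ZMod 2] X} (h : Good eps B)
    (h' : Good eps B')
    (G : (X × X) ≃ₗ[ZMod 2] (X × X)) (hG : ∀ a x, ∃ a' x', G (j B a x) = j B' a' x')
    (hG0 : G (j B 0 eps) = j B' 0 eps) :
    ∃ A : X → X, Function.Injective A ∧ (∀ x y, A (x + y) = A x + A y) ∧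
      ((∀ y, A (y + B y) = A y + B' (A y)) ∨
       (∀ y, B' (A (y + B y)) = A y + B' (A y)) ∨
       (∀ y, A (y + B y) = B' (A y)) ∨
       (∀ y, A (y + B y) + B' (A (y + B y)) = B' (A y)) ∨
       (∀ y, B' (A (y + B y)) = A y) ∨
       (∀ y, A (y + B y) + B' (A (y + B y)) = A y)) := by
  choose σ hσ using cls hcard h' G hG
  choose A hA using hσ
  have hAinj : ∀ a, Function.Injective (A a) := by
    intro a x y hxy
    apply j_inj (B := B) a
    apply G.injective
    rw [hA, hA, hxy]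
  have hAadd : ∀ a x y, A a (x + y) = A a x + A a y := by
    intro a x y
    apply j_inj (B := B') (σ a)
    rw [map_add, ← hA, ← hA, ← hA, map_add, map_add]
  have hσinj : ∀ a a', a ≠ a' → σ a ≠ σ a' := by
    intro a a' hne he
    obtain ⟨x, hx⟩ := (Finite.injective_iff_surjective.1 (hAinj a)) (A a' eps)
    have h5 : G (j B a x) = G (j B a' eps) := by
      rw [hA, hA, hx, he]
    exact h.ne0 (j_disj h hne (G.injective h5)).2
  have hσ0 : σ 0 = 0 := by
    by_contra hne
    have h5 : j B' (σ 0) (A 0 eps) = j B' 0 eps := by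
      rw [← hA, hG0]
    exact h.ne0 (j_disj h' hne h5).2
  have hA0 : ∀ x, G (j B 0 x) = j B' 0 (A 0 x) := by
    intro x
    rw [hA, hσ0]
  have E1 : ∀ y, j B' 0 (A 0 (y + B y)) + j B' (σ 2) (A 2 y) = j B' (σ 3) (A 3 y) := by
    intro y
    rw [← hA 2, ← hA 3, ← hA0, ← map_add]
    congr 1
    change ((y + B y, 0) : (X × X)) + (y, y) = (B y, y)
    rw [Prod.mk_add_mk, zero_add, add_comm y (B y), add_assoc, two_x, add_zero]
  have E2 : ∀ y, j B' 0 (A 0 y) + j B' (σ 2) (A 2 y) = j B' (σ 1) (A 1 y) := by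
    intro y
    rw [← hA 2, ← hA 1, ← hA0, ← map_add]
    congr 1
    change ((y, 0) : (X × X)) + (y, y) = (0, y)
    rw [Prod.mk_add_mk, zero_add, two_x]
  have hcase : ∀ s1 s2 s3 : Fin 4, s1 ≠ 0 → s2 ≠ 0 → s3 ≠ 0 → s1 ≠ s2 → s1 ≠ s3 → s2 ≠ s3 →
      (s1 = 1 ∧ s2 = 2 ∧ s3 = 3) ∨ (s1 = 1 ∧ s2 = 3 ∧ s3 = 2) ∨ (s1 = 2 ∧ s2 = 1 ∧ s3 = 3) ∨
      (s1 = 2 ∧ s2 = 3 ∧ s3 = 1) ∨ (s1 = 3 ∧ s2 = 1 ∧ s3 = 2) ∨ (s1 = 3 ∧ s2 = 2 ∧ s3 = 1) := by
    intro s1 s2 s3
    fin_cases s1 <;> fin_cases s2 <;> fin_cases s3 <;> simp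
  have hn : ∀ a, a ≠ 0 → σ a ≠ 0 := by
    intro a ha
    rw [← hσ0]
    exact hσinj a 0 ha
  have half : ∀ x y z : X, x + y = z → x = y + z := by
    intro x y z hxyz
    rw [← hxyz, add_comm x y, ← add_assoc, two_x, zero_add]
  refine ⟨A 0, hAinj 0, hAadd 0, ?_⟩
  rcases hcase (σ 1) (σ 2) (σ 3) (hn 1 (by decide)) (hn 2 (by decide)) (hn 3 (by decide))
    (hσinj 1 2 (by decide)) (hσinj 1 3 (by decide)) (hσinj 2 3 (by decide)) with
    ⟨a1, a2, a3⟩ | ⟨a1, a2, a3⟩ | ⟨a1, a2, a3⟩ | ⟨a1, a2, a3⟩ | ⟨a1, a2, a3⟩ | ⟨a1, a2, a3⟩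
  · -- identity : A (C y) = C' (A y)
    refine Or.inl fun y => ?_
    have e1 := E1 y
    have e2 := E2 y
    rw [a2, a3] at e1
    rw [a1, a2] at e2
    have e11 : A 0 (y + B y) + A 2 y = B' (A 3 y) := congrArg Prod.fst e1
    have e12 : 0 + A 2 y = A 3 y := congrArg Prod.snd e1
    have e21 : A 0 y + A 2 y = 0 := congrArg Prod.fst e2
    have e3 := eq_of_add e21
    rw [zero_add] at e12
    rw [← e12, ← e3] at e11
    exact half _ _ _ e11
  · -- (1,3,2): B' A C = C' A
    refine Or.inr (Or.inl fun y => ?_)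
    have e1 := E1 y
    have e2 := E2 y
    rw [a2, a3] at e1
    rw [a1, a2] at e2
    have e11 : A 0 (y + B y) + B' (A 2 y) = A 3 y := congrArg Prod.fst e1
    have e12 : 0 + A 2 y = A 3 y := congrArg Prod.snd e1
    have e21 : A 0 y + B' (A 2 y) = 0 := congrArg Prod.fst e2
    have e3 := eq_of_add e21
    rw [zero_add] at e12
    rw [← e12] at e11
    have e4 := half _ _ _ e11
    rw [e4, map_add, ← e3, add_comm]
  · -- (2,1,3): A C = B' A
    refine Or.inr (Or.inr (Or.inl fun y => ?_))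
    have e1 := E1 y
    have e2 := E2 y
    rw [a2, a3] at e1
    rw [a1, a2] at e2
    have e11 : A 0 (y + B y) + 0 = B' (A 3 y) := congrArg Prod.fst e1
    have e12 : 0 + A 2 y = A 3 y := congrArg Prod.snd e1
    have e21 : A 0 y + 0 = A 1 y := congrArg Prod.fst e2
    have e22 : 0 + A 2 y = A 1 y := congrArg Prod.snd e2
    rw [zero_add] at e12 e22
    rw [add_zero] at e11 e21
    rw [e11, ← e12, e22, e21]
  · -- (2,3,1): C' A C = B' A
    refine Or.inr (Or.inr (Or.inr (Or.inl fun y => ?_)))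
    have e1 := E1 y
    have e2 := E2 y
    rw [a2, a3] at e1
    rw [a1, a2] at e2
    have e11 : A 0 (y + B y) + B' (A 2 y) = 0 := congrArg Prod.fst e1
    have e21 : A 0 y + B' (A 2 y) = A 1 y := congrArg Prod.fst e2
    have e22 : 0 + A 2 y = A 1 y := congrArg Prod.snd e2
    rw [zero_add] at e22
    have e3 := eq_of_add e11
    rw [← e22] at e21
    have e4 := half _ _ _ e21
    rw [e3, e4, map_add, add_comm]
  · -- (3,1,2): B' A C = A
    refine Or.inr (Or.inr (Or.inr (Or.inr (Or.inl fun y => ?_))))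
    have e1 := E1 y
    have e2 := E2 y
    rw [a2, a3] at e1
    rw [a1, a2] at e2
    have e11 : A 0 (y + B y) + 0 = A 3 y := congrArg Prod.fst e1
    have e12 : 0 + A 2 y = A 3 y := congrArg Prod.snd e1
    have e21 : A 0 y + 0 = B' (A 1 y) := congrArg Prod.fst e2
    have e22 : 0 + A 2 y = A 1 y := congrArg Prod.snd e2
    rw [zero_add] at e12 e22
    rw [add_zero] at e11 e21
    rw [e11, ← e12, e22, e21]
  · -- (3,2,1): C' A C = A
    refine Or.inr (Or.inr (Or.inr (Or.inr (Or.inr fun y => ?_))))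
    have e1 := E1 y
    have e2 := E2 y
    rw [a2, a3] at e1
    rw [a1, a2] at e2
    have e11 : A 0 (y + B y) + A 2 y = 0 := congrArg Prod.fst e1
    have e21 : A 0 y + A 2 y = B' (A 1 y) := congrArg Prod.fst e2
    have e22 : 0 + A 2 y = A 1 y := congrArg Prod.snd e2
    rw [zero_add] at e22
    have e3 := eq_of_add e11
    rw [← e22] at e21
    have e4 := half _ _ _ e21
    rw [e3, e4]

/-- An isomorphism of the dual matroids gives a relation. -/
theorem rel_of_iso (hcard : 12 < Nat.card X) {B B' : X →ₗ[ZMod 2] X} (h : Good eps B)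
    (h' : Good eps B') (f : (Fin 4 × {x : X // x ≠ 0}) ≃ (Fin 4 × {x : X // x ≠ 0}))
    (hf : ∀ I : Set (Fin 4 × {x : X // x ≠ 0}), (vecMatroid (ZMod 2) (v B))✶.Indep I ↔
      (vecMatroid (ZMod 2) (v B'))✶.Indep (f '' I)) :
    ∃ A : X → X, Function.Injective A ∧ (∀ x y, A (x + y) = A x + A y) ∧
      ((∀ y, A (y + B y) = A y + B' (A y)) ∨
       (∀ y, B' (A (y + B y)) = A y + B' (A y)) ∨
       (∀ y, A (y + B y) = B' (A y)) ∨
       (∀ y, A (y + B y) + B' (A (y + B y)) = B' (A y)) ∨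
       (∀ y, B' (A (y + B y)) = A y) ∨
       (∀ y, A (y + B y) + B' (A (y + B y)) = A y)) := by
  obtain ⟨G, hG⟩ := lin_of_iso h h' f (primal_iso f hf)
  obtain ⟨G', g', hg', hge'⟩ := transL h' (f (e0 h.ne0))
  refine exists_rel hcard h h' (G.trans G') ?_ ?_
  · intro a x
    by_cases hx : x = 0
    · refine ⟨0, 0, ?_⟩
      rw [hx, map_zero, map_zero, map_zero]
    · have h1 : (G.trans G') (j B a x) = v B' (g' (f (a, ⟨x, hx⟩))) := by
        rw [LinearEquiv.trans_apply, ← hg', ← hG]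
        rfl
      exact ⟨(g' (f (a, ⟨x, hx⟩))).1, (g' (f (a, ⟨x, hx⟩))).2.1, h1⟩
  · have h1 : (G.trans G') (v B (e0 h.ne0)) = v B' (g' (f (e0 h.ne0))) := by
      rw [LinearEquiv.trans_apply, ← hg', ← hG]
    rw [hge'] at h1
    exact h1

end Pool.Agent.KS6_29.BM
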